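import Pool.Agent.W900.DJ.Typ
import Pool.Agent.W900.CH.EPos
import Pool.Agent.W900.CH.NELev

/-!
# The upper bound
-/

set_option autoImplicit false

namespace Pool.Agent.W900.DJ

open Filter MeasureTheory Pool.Agent.NPC Pool.Agent.H620R2.Gauge Pool.Agent.H622R2
open Pool.Agent.W900.CH (Close census finite_census close_of_code exists_K)
open Pool.Agent.H620R2.Gauge.CC
open Pool.Agent.H591R3.PHG

/-- the join with an oracle -/
def jn (O A : Oracle) : Oracle := fun z => if z.take 2 = [true, false] then A (z.drop 2) else O z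

open Classical in
theorem exists_plug (O : Oracle) (K : ℕ) : ∃ (R : ℕ → Polynomial ℕ) (Φ : Oracle),
    (∀ e n, (n + e + 1) ^ K ≤ (R e).eval n) ∧ (∀ y, (∀ e x, y ≠ code R e x) → Φ y = false) ∧
    ∀ L, IsPSPACE (jn O Φ) L → Reduces L {x | jn O Φ x = true} := by
  obtain ⟨g, hg⟩ := exists_enum
  choose b hb using fun e : ℕ => act_length (g e).1 (g e).2
  set R : ℕ → Polynomial ℕ := fun e => b e + (Polynomial.X + Polynomial.C (e + 1)) ^ K with hR
  set V : ℕ → Oracle → List Bool → Prop := fun e A x =>
    Acc (g e).1 (cut ((b e).eval x.length) (jn O A)) x with hV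
  have hRe : ∀ e n, (R e).eval n = (b e).eval n + (n + (e + 1)) ^ K := by
    intro e n
    rw [hR]
    simp only [Polynomial.eval_add, Polynomial.eval_pow, Polynomial.eval_X, Polynomial.eval_C]
  refine ⟨R, Phi R V (fun _ => false), ?_, fun y h => Phi_not R V _ y h, ?_⟩
  · intro e n
    rw [hRe, add_assoc n e 1]
    exact Nat.le_add_left _ _
  · rintro L ⟨M, p, hM⟩
    set Ψ : Oracle := Phi R V (fun _ => false) with hΨ
    obtain ⟨e, he⟩ := hg (M, p)
    have hpl : Poly (fun x => true :: false :: code R e x) :=
      Poly.cons (NPC.Poly.const _) (Poly.cons (NPC.Poly.const _) (poly_code R e))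
    refine ⟨fun x => true :: false :: code R e x, polyTime_of_poly_list hpl, fun x => ?_⟩
    have hloc : ∀ e A A' x, (∀ z : List Bool, z.length < (code R e x).length → A z = A' z) →
        (V e A x ↔ V e A' x) := by
      intro e A A' x h
      have hcut : cut ((b e).eval x.length) (jn O A) = cut ((b e).eval x.length) (jn O A') := by
        funext z
        unfold cut
        split_ifs with hz
        · unfold jn
          split_ifs with h2
          · apply h
            have h1 := lt_length_code R e x
            have h2 := hRe e x.length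
            rw [List.length_drop]
            omega
          · rfl
        · rfl
      simp only [hV, hcut]
    change x ∈ L ↔ jn O Ψ (true :: false :: code R e x) = true
    have hj : jn O Ψ (true :: false :: code R e x) = Ψ (code R e x) := rfl
    rw [hj, hΨ, Phi_code R V _ hloc e x]
    change x ∈ L ↔ Acc (g e).1 (cut ((b e).eval x.length) (jn O Ψ)) x
    have hbe := hb e
    rw [he] at hbe ⊢
    obtain ⟨hM1, s, z, hs, hz, hL⟩ := hM x
    have hcong : ∀ s, M.Reach (cut ((b e).eval x.length) (jn O Ψ)) x s ↔
        M.Reach (jn O Ψ) x s := by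
      refine reach_congr (fun s => s.length ≤ p.eval x.length) hM1 ?_
      intro s q h1 h2
      have h3 := hbe x s h1
      rw [h2, List.length_cons] at h3
      unfold cut
      rw [if_pos (by omega)]
    constructor
    · intro hx
      refine ⟨s, (hcong s).2 hs, ?_⟩
      rw [hz, hL.1 hx]
    · rintro ⟨t, ht, ht2⟩
      have hst := reach_unique hs ((hcong t).1 ht) ⟨_, hz⟩ ⟨_, ht2⟩
      rw [hst, ht2] at hz
      simp only [List.cons.injEq, true_and] at hz
      exact hL.2 hz.symm

/-- **The upper bound.** -/
theorem exists_upp {c : ℕ → ℝ}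
    (hc : ¬ ∀ ε : ℝ, 0 < ε → ∃ᶠ n : ℕ in atTop, c n ≤ 2 ^ (n : ℝ) ^ ε) (O : Oracle) :
    ∃ S : Set (List Bool), (∀ᶠ n : ℕ in atTop, (census S n : ℝ) ≤ c n) ∧
      ∀ L, IsPSPACE (plug O S) L → IsP (plug O S) L := by
  push Not at hc
  obtain ⟨ε, hε, h⟩ := hc
  obtain ⟨K, hK'⟩ := exists_K hε
  obtain ⟨R, Φ, hR, hΦ, hΦO⟩ := exists_plug O K
  have h1 := close_of_code (O := fun _ => false) (A := Φ) hε h hK' hR hΦ
  refine ⟨{y | Φ y = true}, ?_, ?_⟩
  · unfold CH.Close at h1
    filter_upwards [h1] with n hn
    have h2 : census {y | Φ y = true} n = CH.dist (fun _ => false) Φ n := by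
      unfold census CH.dist
      congr 1
      ext x
      simp only [Set.mem_ofPred_eq]
      rw [and_comm]
      simp
    rw [h2]
    exact hn
  · have h3 : plug O {y | Φ y = true} = jn O Φ := by
      funext z
      unfold plug jn
      split_ifs with h4
      · simp
      · rfl
    rw [h3]
    exact fun L hL => isP_of_reduces (hΦO L hL)

end Pool.Agent.W900.DJ
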