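import Pool.Agent.H591R3.PHG.Cover

/-! Covers of the sets of oracles for which the hard languages are easy, on the inputs which do
not begin with `10` (after H591R3.PHG.Cover). -/

set_option autoImplicit false

namespace Pool.Agent.W900.DJ

open Finset H568R2 Pool.Agent.H676 Pool.Agent.H620R2.Gauge Pool.Agent.NPC
open Pool.Agent.H591R3.PHG

/-- the inputs: at least two bits, the first two are not `10` -/
def Gd (x : List Bool) : Prop := 2 ≤ x.length ∧ x.take 2 ≠ [true, false]

theorem enc_nil_len (w : ℕ) (z : List Bool) : 1 ≤ (pairBits (List.replicate w true) z).length := by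
  unfold pairBits
  simp only [List.length_append, List.length_cons]
  omega

theorem gd_pair (a : ℕ) (acc : List Bool) (h : 1 ≤ acc.length) :
    Gd (pairBits (List.replicate a true) acc) := by
  unfold Gd pairBits
  rcases a with _ | a
  · obtain ⟨b, t, rfl⟩ := List.exists_cons_of_length_pos h
    simp
  · simp [List.replicate_succ]

theorem gd_enc : ∀ (as : List ℕ) (w : ℕ) (z : List Bool), as ≠ [] → Gd (enc as w z) := by
  intro as w z has
  have h1 : ∀ (as : List ℕ) (acc : List Bool), 1 ≤ acc.length → as ≠ [] →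
      Gd (as.foldl (fun acc a => pairBits (List.replicate a true) acc) acc) := by
    intro as
    induction as with
    | nil => intro acc _ h; exact absurd rfl h
    | cons a as ih =>
      intro acc hacc _
      rw [List.foldl_cons]
      by_cases h : as = []
      · subst h
        exact gd_pair a acc hacc
      · exact ih _ (by unfold pairBits; simp only [List.length_append, List.length_cons]; omega) h
  exact h1 as _ (enc_nil_len w z) has

/-- the oracles for which the parameters are good for the hard language -/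
def EasyG (θ : Par) : Set Oracle :=
  {A | ∃ (V : List Bool → List Bool) (h : ℕ → List Bool),
    (∀ x, θ.M.out A x = some (V x)) ∧ (∀ n, (h n).length ≤ θ.p'.eval n) ∧
    ∀ x, Gd x → (x ∈ lang θ.k A ↔ Quant (θ.p.eval (pairBits x (h x.length)).length) V θ.k true
      (pairBits x (h x.length)))}

theorem mem_easyG {A : Oracle} {k : ℕ} {L : Set (List Bool)} (h : IsSigPoly A k L)
    (hL : ∀ x, Gd x → (x ∈ L ↔ x ∈ lang k A)) : ∃ θ, A ∈ EasyG θ := by
  obtain ⟨L', h, p', ⟨V, p, ⟨M, hM⟩, hL'⟩, hh, hx⟩ := h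
  exact ⟨⟨M, p, k, p'⟩, V, h, hM, hh, fun x hG =>
    (hL x hG).symm.trans ((hx x).trans (hL' _))⟩

theorem ev2_of_easyG (θ : Par) : ∃ Q : Polynomial ℕ, ∀ A ∈ EasyG θ, ∀ (as : List ℕ) (n N u : ℕ),
    as.length = θ.k + 1 → (∀ a ∈ as, a ≤ 64 * n) →
    ∀ hN : ∀ g : Idx (Fin (2 ^ (u + 11))) (8 * n :: pw as),
      idx (addr (inp as n (2 ^ (u + 11))) as g.1 ++ List.replicate g.2.val true) < N,
    2 ^ (Q.eval n + 1) ≤ N → Ev2 θ as n N u hN (pre N A) := by
  obtain ⟨qb, hqb⟩ := Alg.out_local θ.M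
  refine ⟨qb.comp (Lt θ), ?_⟩
  rintro A ⟨V, h, hM, hh, hx⟩ as n N u hk has hpos hN
  have hQ : (qb.comp (Lt θ)).eval n = qb.eval ((Lt θ).eval n) := by
    simp [Polynomial.eval_comp]
  rw [hQ] at hN
  have hV : ∀ y : List Bool, y.length ≤ (Lt θ).eval n →
      (V y = [true] ↔ leaf θ.M N y (pre N A) = true) := by
    intro y hy
    obtain ⟨Q, _, hQl, hQA⟩ := hqb A y
    have h1 : θ.M.out (orc N (pre N A)) y = θ.M.out A y := by
      apply hQA
      intro q hq
      apply orc_pre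
      have h2 := idx_lt q
      have h3 : q.length ≤ qb.eval ((Lt θ).eval n) := (hQl q hq).trans (eval_mono _ hy)
      have h4 : 2 ^ (q.length + 1) ≤ 2 ^ (qb.eval ((Lt θ).eval n) + 1) :=
        Nat.pow_le_pow_right (by norm_num) (by omega)
      omega
    unfold leaf
    rw [h1, hM y, decide_eq_true_eq, Option.some.injEq]
  have hlx : lx as n ≤ (Lx θ.k).eval n := inp_len_le hk has
  refine ⟨(h (lx as n)).length, (hh _).trans (eval_mono _ hlx), h (lx as n), rfl, ?_⟩
  intro j
  have hlen : (inp as n (2 ^ (u + 11)) j).length = lx as n := inp_len as n _ j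
  have hG : Gd (inp as n (2 ^ (u + 11)) j) := gd_enc as _ _ (fun h => by
    rw [h] at hk
    simp at hk)
  have h1 := hx (inp as n (2 ^ (u + 11)) j) hG
  rw [hlen, length_pairBits, hlen] at h1
  have h2 : inp as n (2 ^ (u + 11)) j ∈ lang θ.k A ↔
      Tr (8 * n :: pw as) (fun g => pre N A (pos as n (2 ^ (u + 11)) N hpos g)) j = false := by
    refine (mem_lang_iff A θ.k as hk (8 * n)
      (fun j : Fin (2 ^ (u + 11)) => bitsOf (n + 11) j.val) j).trans ?_
    have e : leaves (fun j : Fin (2 ^ (u + 11)) => enc as (8 * n) (bitsOf (n + 11) j.val)) as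
        (8 * n) A = fun g => pre N A (pos as n (2 ^ (u + 11)) N hpos g) := by
      funext g
      show A (addr (inp as n (2 ^ (u + 11))) as g.1 ++ List.replicate g.2.val true) =
        A (str (idx (addr (inp as n (2 ^ (u + 11))) as g.1 ++ List.replicate g.2.val true)))
      rw [str_idx]
    rw [e]
  have hlt : 2 * lx as n + 1 + (h (lx as n)).length ≤ (L0 θ).eval n := by
    rw [eval_L0]
    have := (hh (lx as n)).trans (eval_mono _ hlx)
    omega
  have h3 := quant_iff (m := θ.p.eval (2 * lx as n + 1 + (h (lx as n)).length))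
    ((Lt θ).eval n) hV θ.k true
    (pairBits (inp as n (2 ^ (u + 11)) j) (h (lx as n))) (by
      rw [length_pairBits, hlen, eval_Lt]
      have h5 : θ.p.eval (2 * lx as n + 1 + (h (lx as n)).length) ≤
        θ.p.eval ((L0 θ).eval n) := eval_mono _ hlt
      have h6 : θ.k * (2 * θ.p.eval (2 * lx as n + 1 + (h (lx as n)).length) + 1) ≤
        θ.k * (2 * θ.p.eval ((L0 θ).eval n) + 1) := Nat.mul_le_mul_left _ (by omega)
      omega)
  have h4 : QF (θ.p.eval (2 * lx as n + 1 + (h (lx as n)).length)) (leaf θ.M N) θ.k true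
      (pairBits (inp as n (2 ^ (u + 11)) j) (h (lx as n))) (pre N A) = true ↔
      Tr (8 * n :: pw as) (fun g => pre N A (pos as n (2 ^ (u + 11)) N hpos g)) j = false := by
    rw [← h2, h1, ← h3]
  intro heq
  rw [heq] at h4
  cases hb : Tr (8 * n :: pw as) (fun g => pre N A (pos as n (2 ^ (u + 11)) N hpos g)) j with
  | true => rw [hb] at h4; exact absurd (h4.1 rfl) (by simp)
  | false => rw [hb] at h4; exact absurd (h4.2 rfl) (by simp)

theorem cover_easyG (θ : Par) (f : ℕ → ℝ)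
    (hf : ∀ ε : ℝ, 0 < ε → ∃ᶠ N : ℕ in Filter.atTop, f N ≤ 2 ^ (Real.logb 2 N) ^ ε)
    (δ : ℝ) (hδ : 0 < δ) : ∃ S : Set (List Bool), (∀ A ∈ EasyG θ, ∃ σ ∈ S, Extends A σ) ∧
    ∑' σ : S, ENNReal.ofReal (2 ^ (f σ.1.length - σ.1.length)) ≤ ENNReal.ofReal δ := by
  classical
  obtain ⟨Q, hQ⟩ := ev2_of_easyG θ
  obtain ⟨n, N, u, hn5, hP, hu, hN, hb⟩ := asym θ.k (PP θ)
    (Q + Lx θ.k + Polynomial.C (64 * (θ.k + 1) + 8) * Polynomial.X) f hf δ hδ 5
  have hQe : (Q + Lx θ.k + Polynomial.C (64 * (θ.k + 1) + 8) * Polynomial.X).eval n =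
      Q.eval n + (Lx θ.k).eval n + (64 * (θ.k + 1) + 8) * n := by simp
  rw [hQe] at hN
  have hN1 : 2 ^ (Q.eval n + 1) ≤ N :=
    le_trans (Nat.pow_le_pow_right (by norm_num) (by omega)) hN
  have hN2 : 2 ^ ((Lx θ.k).eval n + 64 * (θ.k + 1) * n + 8 * n + 1) ≤ N := by
    refine le_trans (Nat.pow_le_pow_right (by norm_num) ?_) hN
    have : (64 * (θ.k + 1) + 8) * n = 64 * (θ.k + 1) * n + 8 * n := by ring
    omega
  have hu8 : 8 * u ≤ n := by
    have : 8 * u ≤ 8 * (θ.k + 1) * u := by nlinarith [Nat.zero_le (θ.k * u)]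
    omega
  obtain ⟨as, hk, has, hX⟩ := exists_sizes hn5 θ.k _ (inv_start hn5)
  have hlaw := hX (Fin (2 ^ (u + 11))) (2 ^ (3 * u + 11)) (2 ^ (u + 9)) (by
      calc 16 * 2 ^ (3 * u + 11) = 2 ^ (3 * u + 15) := by
            rw [show 3 * u + 15 = 3 * u + 11 + 4 from rfl, pow_add _ (3 * u + 11) 4]; ring
        _ ≤ 2 ^ (4 * n) := Nat.pow_le_pow_right (by norm_num) (by omega)) (by
      rw [Fintype.card_fin]
      have : 2 ^ (u + 11) = 4 * 2 ^ (u + 9) := by
        rw [show u + 11 = u + 9 + 2 from rfl, pow_add _ (u + 9) 2]; ring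
      omega)
  rw [Fintype.card_fin] at hlaw
  have hpos : ∀ g : Idx (Fin (2 ^ (u + 11))) (8 * n :: pw as),
      idx (addr (inp as n (2 ^ (u + 11))) as g.1 ++ List.replicate g.2.val true) < N :=
    fun g => pos_lt hk has hN2 g
  have hev := ev2_bound θ hn5 hu8 hk has hlaw hP hpos
  refine ⟨(fun a : Fin N → Bool => List.ofFn a) '' {a | Ev2 θ as n N u hpos a}, ?_, ?_⟩
  · intro A hA
    refine ⟨List.ofFn (pre N A), ⟨pre N A, hQ A hA as n N u hk has hpos hN1, rfl⟩, ?_⟩
    intro i hi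
    rw [List.getElem_ofFn]
    rfl
  · have hinj : Set.InjOn (fun a : Fin N → Bool => List.ofFn a) {a | Ev2 θ as n N u hpos a} :=
      fun a _ b _ h => List.ofFn_injective h
    rw [tsum_image (fun σ : List Bool => ENNReal.ofReal (2 ^ (f σ.length - σ.length))) hinj]
    simp only [List.length_ofFn]
    rw [tsum_fintype, Finset.sum_const, nsmul_eq_mul, Finset.card_univ]
    rw [← ENNReal.ofReal_natCast, ← ENNReal.ofReal_mul (by positivity)]
    apply ENNReal.ofReal_le_ofReal
    have h1 : Fintype.card {a : Fin N → Bool | Ev2 θ as n N u hpos a} =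
        (univ.filter (fun a : Fin N → Bool => Ev2 θ as n N u hpos a)).card := by
      rw [← Fintype.card_subtype]
      rfl
    have h2 := card_of_Ex (fun a : Fin N → Bool => Ev2 θ as n N u hpos a)
    have h3 : (2 : ℝ) ^ (f N - N) = 2 ^ (-(N : ℝ)) * 2 ^ f N := by
      rw [← Real.rpow_add (by norm_num)]; congr 1; ring
    rw [h1, h3, ← mul_assoc, h2]
    exact (mul_le_mul_of_nonneg_right hev (by positivity)).trans hb

theorem null_of_frequentlyG (f : ℕ → ℝ)
    (hf : ∀ ε : ℝ, 0 < ε → ∃ᶠ N : ℕ in Filter.atTop, f N ≤ 2 ^ (Real.logb 2 N) ^ ε)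
    (O : Set Oracle) (hO : ∀ A ∈ O, ∃ k L, IsSigPoly A k L ∧
      ∀ x, Gd x → (x ∈ L ↔ x ∈ lang k A)) : Null f O := by
  intro δ hδ
  obtain ⟨δ', hδ', hsum⟩ := ENNReal.exists_pos_sum_of_countable
    (ENNReal.ofReal_pos.2 hδ).ne' Par
  choose S hS hSs using fun θ : Par => cover_easyG θ f hf (δ' θ) (by exact_mod_cast hδ' θ)
  refine ⟨⋃ θ, S θ, ?_, ?_⟩
  · intro A hA
    obtain ⟨k, L, hk, hL⟩ := hO A hA
    obtain ⟨θ, hθ⟩ := mem_easyG hk hL
    obtain ⟨σ, hσ, hE⟩ := hS θ A hθ
    exact ⟨σ, Set.mem_iUnion.2 ⟨θ, hσ⟩, hE⟩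
  · refine (ENNReal.tsum_iUnion_le_tsum (fun σ : List Bool =>
      ENNReal.ofReal (2 ^ (f σ.length - σ.length))) S).trans ?_
    refine (ENNReal.tsum_le_tsum hSs).trans ?_
    refine le_trans (le_of_eq ?_) hsum.le
    congr 1
    funext θ
    exact ENNReal.ofReal_coe_nnreal

end Pool.Agent.W900.DJ
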