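import Pool.Agent.W900.DJ.Typ
import Pool.Agent.W900.CH.EPos
import Pool.Agent.W900.CH.NELev

/-!
# The lower bound
-/

set_option autoImplicit false

namespace Pool.Agent.W900.DJ

open Filter MeasureTheory Pool.Agent.NPC Pool.Agent.H620R2.Gauge Pool.Agent.H622R2
open Pool.Agent.W900.CH (Close census finite_census ae_far_P)
open Pool.Agent.H622R2.Exp (logb_le_rpow)
open Pool.Agent.H628R3.RO (randomOracle prob)
open Pool.Agent.H591R3.PHG

theorem Gd.append {x : List Bool} (h : Gd x) (y : List Bool) : Gd (x ++ y) := by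
  obtain ⟨h1, h2⟩ := h
  refine ⟨by rw [List.length_append]; omega, ?_⟩
  rw [List.take_append_of_le_length h1]
  exact h2

theorem foldr_up_congr : ∀ (as : List ℕ) (f f' : List Bool → Bool),
    (∀ u, Gd u → f u = f' u) → ∀ u, Gd u → as.foldr up f u = as.foldr up f' u := by
  intro as
  induction as with
  | nil => intro f f' h u hu; exact h u hu
  | cons a as ih =>
    intro f f' h u hu
    rw [List.foldr_cons, List.foldr_cons]
    unfold up
    rw [decide_eq_decide]
    refine forall₂_congr fun i _ => ?_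
    have h1 := ih f f' h _ (hu.append (bitsOf a i))
    unfold up at h1
    rw [h1]

theorem lang_congr {A A' : Oracle} (h : ∀ z, Gd z → A z = A' z) (k : ℕ) {x : List Bool}
    (hx : Gd x) : x ∈ lang k A ↔ x ∈ lang k A' := by
  have h1 := foldr_up_congr (parse (k + 1) x).1
    (bitv A (unpair (parse (k + 1) x).2).1.length) (bitv A' (unpair (parse (k + 1) x).2).1.length)
    (fun u hu => by
      unfold bitv
      rw [decide_eq_decide]
      exact forall₂_congr fun l _ => by rw [h _ (hu.append _)]) x hx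
  show _ = false ↔ _ = false
  rw [h1]

theorem dist_AA {O : Oracle} {S : Set (List Bool)} {N : ℕ} (hN : ∀ q : List Bool, N ≤ q.length →
    ¬ ∀ l < 3 * (q.length + 1), O (cb q l) = false) (n : ℕ) :
    CH.dist O (AA O S) n ≤ census S n * (3 * (n + 1)) + 2 ^ (N + 1) := by
  classical
  have hfin := finite_census S n
  set X : Finset (List Bool) := hfin.toFinset with hX
  have hcard : X.card = census S n := by
    unfold census
    rw [hX, Set.ncard_eq_toFinset_card _ hfin]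
  have hsub : {x : List Bool | x.length ≤ n ∧ AA O S x ≠ O x} ⊆
      (((X ×ˢ Finset.range (3 * (n + 1))).image (fun p => cb p.1 p.2) ∪
        (Finset.range (2 ^ (N + 1))).image (fun i => cb (str i) 0) : Finset (List Bool)) :
        Set (List Bool)) := by
    rintro z ⟨hz, hne⟩
    rw [Finset.mem_coe, Finset.mem_union, Finset.mem_image, Finset.mem_image]
    by_cases h1 : z ∈ Z1 S
    · left
      obtain ⟨q, hq, l, hl, rfl⟩ := h1
      rw [length_cb] at hz
      refine ⟨(q, l), ?_, rfl⟩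
      rw [Finset.mem_product, Finset.mem_range, hX, Set.Finite.mem_toFinset]
      have h9 : q.length ≤ n := by omega
      have h10 : l < 3 * (n + 1) := by omega
      exact ⟨⟨hq, h9⟩, h10⟩
    · by_cases h2 : z ∈ Z2 O S
      · right
        obtain ⟨q, hq, rfl, h3⟩ := h2
        refine ⟨idx q, ?_, by rw [str_idx]⟩
        rw [Finset.mem_range]
        have h4 : q.length < N := by
          by_contra h
          exact hN q (by omega) h3
        have h5 := idx_lt q
        have h6 : 2 ^ (q.length + 1) ≤ 2 ^ (N + 1) := Nat.pow_le_pow_right (by norm_num) (by omega)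
        omega
      · exact absurd (by unfold AA; rw [if_neg h1, if_neg h2]) hne
  unfold CH.dist
  refine (Set.ncard_le_ncard hsub (Finset.finite_toSet _)).trans ?_
  rw [Set.ncard_coe_finset]
  refine (Finset.card_union_le _ _).trans ?_
  refine Nat.add_le_add (Finset.card_image_le.trans ?_) (Finset.card_image_le.trans ?_)
  · rw [Finset.card_product, Finset.card_range, hcard]
  · rw [Finset.card_range]

theorem cond_mul {c : ℕ → ℝ} (hc : ∀ ε : ℝ, 0 < ε → ∃ᶠ n : ℕ in atTop, c n ≤ 2 ^ (n : ℝ) ^ ε)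
    (C : ℕ) : ∀ ε : ℝ, 0 < ε → ∃ᶠ n : ℕ in atTop,
      c n * (3 * ((n : ℝ) + 1)) + (C : ℝ) ≤ 2 ^ (n : ℝ) ^ ε := by
  intro ε hε
  have h1 := (tendsto_natCast_atTop_atTop (R := ℝ)).eventually (logb_le_rpow (half_pos hε))
  have h2 := (tendsto_natCast_atTop_atTop (R := ℝ)).eventually
    ((tendsto_rpow_atTop (half_pos hε)).eventually_ge_atTop 3)
  have h3 := (tendsto_natCast_atTop_atTop (R := ℝ)).eventually_ge_atTop ((C : ℝ) + 6)
  refine ((hc _ (half_pos hε)).and_eventually (h1.and (h2.and h3))).mono ?_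
  rintro n ⟨h4, h5, h6, h7⟩
  have hC : (0 : ℝ) ≤ C := Nat.cast_nonneg C
  have hn0 : (0 : ℝ) < n := by linarith
  have h8 : 3 * ((n : ℝ) + 1) + C ≤ (n : ℝ) ^ (2 : ℝ) := by
    rw [Real.rpow_two]
    nlinarith
  have h9 : (n : ℝ) ^ (2 : ℝ) = 2 ^ (Real.logb 2 n * 2) := by
    rw [Real.rpow_mul (by norm_num), Real.rpow_logb (by norm_num) (by norm_num) hn0]
  have h10 : (1 : ℝ) ≤ 2 ^ (n : ℝ) ^ (ε / 2) :=
    Real.one_le_rpow (by norm_num) (by positivity)
  have h11 : (n : ℝ) ^ ε = (n : ℝ) ^ (ε / 2) * (n : ℝ) ^ (ε / 2) := by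
    rw [← Real.rpow_add hn0]
    congr 1
    ring
  calc c n * (3 * ((n : ℝ) + 1)) + (C : ℝ)
      ≤ 2 ^ (n : ℝ) ^ (ε / 2) * (3 * ((n : ℝ) + 1)) + 2 ^ (n : ℝ) ^ (ε / 2) * C := by
        refine add_le_add (mul_le_mul_of_nonneg_right h4 (by positivity)) ?_
        nlinarith
    _ = 2 ^ (n : ℝ) ^ (ε / 2) * (3 * ((n : ℝ) + 1) + C) := by ring
    _ ≤ 2 ^ (n : ℝ) ^ (ε / 2) * 2 ^ (Real.logb 2 n * 2) := by
        rw [← h9]
        exact mul_le_mul_of_nonneg_left h8 (by positivity)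
    _ = 2 ^ ((n : ℝ) ^ (ε / 2) + Real.logb 2 n * 2) := by
        rw [← Real.rpow_add (by norm_num)]
    _ ≤ 2 ^ (n : ℝ) ^ ε := by
        apply Real.rpow_le_rpow_of_exponent_le (by norm_num)
        rw [h11]
        nlinarith

theorem sigPoly_plug {O : Oracle} {S : Set (List Bool)} {k : ℕ} {L : Set (List Bool)}
    (h : IsSigPoly (plug O S) k L) : IsSigPoly (AA O S) k L := by
  obtain ⟨L', hh, p', ⟨V, p, hV, hL'⟩, h1, h2⟩ := h
  exact ⟨L', hh, p', ⟨V, p, isFP_plug hV, hL'⟩, h1, h2⟩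

/-- **The lower bound.** -/
theorem ae_low {c : ℕ → ℝ} (hc : ∀ ε : ℝ, 0 < ε → ∃ᶠ n : ℕ in atTop, c n ≤ 2 ^ (n : ℝ) ^ ε) :
    ∀ᵐ O ∂randomOracle, ∀ k, ∃ L, IsSig (plug O ∅) (k + 1) L ∧
      ∀ S : Set (List Bool), (∀ᶠ n : ℕ in atTop, (census S n : ℝ) ≤ c n) →
        ¬ IsSigPoly (plug O S) k L := by
  have hS : ∀ f : ℕ → ℝ, (∀ ε : ℝ, 0 < ε → ∃ᶠ N : ℕ in Filter.atTop,
      f N ≤ 2 ^ (Real.logb 2 N) ^ ε) →
      Null f {A : Oracle | ∃ k L, IsSigPoly A k L ∧ ∀ x, Gd x → (x ∈ L ↔ x ∈ lang k A)} :=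
    fun f hf => null_of_frequentlyG f hf _ fun A hA => hA
  filter_upwards [ae_typ, ae_all_iff.2 (fun C : ℕ => ae_far_P hS (cond_mul hc C))] with O h1 h2 k
  obtain ⟨N, hN⟩ := h1
  refine ⟨lang k (plug O ∅), lang_sig _ k, fun S h3 h => ?_⟩
  have hcl : Close (fun n => c n * (3 * ((n : ℝ) + 1)) + ((2 ^ (N + 1) : ℕ) : ℝ)) O (AA O S) := by
    unfold CH.Close
    filter_upwards [h3] with n hn
    have h4 : (CH.dist O (AA O S) n : ℝ) ≤ (census S n : ℝ) * (3 * ((n : ℝ) + 1)) +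
        ((2 ^ (N + 1) : ℕ) : ℝ) := by exact_mod_cast dist_AA hN n
    refine h4.trans (add_le_add (mul_le_mul_of_nonneg_right hn (by positivity)) le_rfl)
  have h5 := h2 (2 ^ (N + 1)) (AA O S) hcl
  refine h5 ⟨k, _, sigPoly_plug h, fun x hx => ?_⟩
  refine lang_congr (fun z hz => ?_) k hx
  have h6 : AA O S z = O z := AA_off hz.2
  unfold plug
  rw [if_neg hz.2, h6]

end Pool.Agent.W900.DJ
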