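import Pool.Agent.W900.SP.Sim

/-!
# Polynomial-time truth-table reductions between oracles
-/

set_option autoImplicit false

namespace Pool.Agent.W900.DJ

open Pool.Agent.NPC Pool.Agent.H620R2.Gauge Pool.Agent.H622R2
open Pool.Agent.W900.SP (poly_u1 poly_u2)

section

variable (M : Alg) (Q : List Bool → List (List Bool)) (T : List Bool × List Bool → Bool)

/-- the next action -/
def nx (u α : List Bool) : List Bool := M.D (pairBits u α)

/-- the step, with the answers -/
noncomputable def sH (p : List Bool × List Bool) : List Bool :=
  if (nx M (unpair p.1).1 (unpair p.1).2).head? = some false then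
    pairBits (unpair p.1).1 ((unpair p.1).2 ++
      [T ((nx M (unpair p.1).1 (unpair p.1).2).tail, p.2)])
  else p.1

/-- the questions -/
def sQ (s : List Bool) : List (List Bool) := Q (nx M (unpair s).1 (unpair s).2).tail

/-- one step -/
noncomputable def stS (A : Oracle) (s : List Bool) : List Bool := sH M T (s, (sQ M Q s).map A)

/-- the result -/
noncomputable def simF (A : Oracle) (u : List Bool) : List Bool :=
  (nx M (unpair ((stS M Q T A)^[M.p.eval u.length] (pairBits u []))).1
    (unpair ((stS M Q T A)^[M.p.eval u.length] (pairBits u []))).2).tail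

theorem poly_nx {α : Type} [TEnc α] {u a : α → List Bool} (hu : Poly u)
    (ha : Poly a) : Poly (fun x => nx M (u x) (a x)) := by
  unfold nx
  exact (poly_of_polyTime M.poly).comp (poly_pairBits hu ha)

variable {Q T}

theorem poly_sH (hT : Poly T) : Poly (sH M T) := by
  have h1 : Poly (fun p : List Bool × List Bool => (unpair p.1).1) := poly_u1 (Poly.fst Poly.id)
  have h2 : Poly (fun p : List Bool × List Bool => (unpair p.1).2) := poly_u2 (Poly.fst Poly.id)
  have h3 := poly_nx M h1 h2
  unfold sH
  refine Poly.ite (Poly.decide_eq (Poly.head? h3) (NPC.Poly.const _)) ?_ (Poly.fst Poly.id)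
  exact poly_pairBits h1 (Poly.append h2
    (Poly.cons (hT.comp (Poly.pair (Poly.tail h3) (Poly.snd Poly.id))) (NPC.Poly.const [])))

theorem poly_sQ (hQ : Poly Q) : Poly (sQ M Q) := by
  unfold sQ
  exact hQ.comp (Poly.tail (poly_nx M (poly_u1 Poly.id) (poly_u2 Poly.id)))

theorem isFP_stS (hQ : Poly Q) (hT : Poly T) (A : Oracle) : IsFP A (stS M Q T A) :=
  IsFP.tt (poly_sQ M hQ) (poly_sH M hT)

/-- one step for the answers -/
noncomputable def stA (B : Oracle) (u α : List Bool) : List Bool :=
  if (nx M u α).head? = some false then α ++ [B (nx M u α).tail] else α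

theorem stS_pair {A B : Oracle} (hB : ∀ z, B z = T (z, (Q z).map A)) (u α : List Bool) :
    stS M Q T A (pairBits u α) = pairBits u (stA M B u α) := by
  unfold stS sH sQ stA
  simp only [unpair_pairBits]
  by_cases h : (nx M u α).head? = some false
  · rw [if_pos h, if_pos h, hB]
  · rw [if_neg h, if_neg h]

theorem iter_stS {A B : Oracle} (hB : ∀ z, B z = T (z, (Q z).map A)) (u α : List Bool) (n : ℕ) :
    (stS M Q T A)^[n] (pairBits u α) = pairBits u ((stA M B u)^[n] α) := by
  induction n with
  | zero => rfl
  | succ n ih =>
    rw [Function.iterate_succ_apply', Function.iterate_succ_apply', ih, stS_pair M hB]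

theorem length_iter_stA (B : Oracle) (u α : List Bool) (n : ℕ) :
    ((stA M B u)^[n] α).length ≤ α.length + n := by
  induction n with
  | zero => simp
  | succ n ih =>
    rw [Function.iterate_succ_apply']
    have h : ∀ β : List Bool, (stA M B u β).length ≤ β.length + 1 := by
      intro β
      unfold stA
      split_ifs
      · simp
      · omega
    have := h ((stA M B u)^[n] α)
    omega

theorem isFP_simF {A B : Oracle} (hQ : Poly Q) (hT : Poly T)
    (hB : ∀ z, B z = T (z, (Q z).map A)) : IsFP A (simF M Q T A) := by
  have h1 : IsFP A (fun x => (stS M Q T A)^[M.p.eval x.length] (pairBits x [])) := by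
    refine IsFP.loop (isFP_stS M hQ hT A) (g := fun x => pairBits x [])
      (poly_pairBits Poly.id (NPC.Poly.const [])) M.p
      (Polynomial.C 2 * Polynomial.X + Polynomial.C 1 + M.p) ?_
    intro x i hi
    rw [iter_stS M hB, A2.length_pairBits]
    have h2 := length_iter_stA M B x [] i
    simp only [Polynomial.eval_add, Polynomial.eval_mul, Polynomial.eval_C, Polynomial.eval_X,
      List.length_nil] at h2 ⊢
    omega
  have h2 : Poly (fun s : List Bool => (nx M (unpair s).1 (unpair s).2).tail) :=
    Poly.tail (poly_nx M (poly_u1 Poly.id) (poly_u2 Poly.id))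
  exact IsFP.comp (G := fun s : List Bool => (nx M (unpair s).1 (unpair s).2).tail)
    (IsFP.of_poly h2) h1

theorem run_sim (B : Oracle) (u z : List Bool) : ∀ (n : ℕ) (α : List Bool),
    M.run B u n α = some z → ∀ m, n ≤ m → (nx M u ((stA M B u)^[m] α)).tail = z := by
  intro n
  induction n with
  | zero => intro α h; simp [Alg.run] at h
  | succ n ih =>
    intro α h m hm
    rw [A2.run_succ] at h
    by_cases h1 : (M.D (pairBits u α)).head? = some false
    · rw [if_pos h1] at h
      obtain ⟨m, rfl⟩ : ∃ m', m = m' + 1 := ⟨m - 1, by omega⟩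
      rw [Function.iterate_succ_apply]
      have h2 : stA M B u α = α ++ [B (M.D (pairBits u α)).tail] := by
        unfold stA nx
        exact if_pos h1
      rw [h2]
      exact ih _ h m (by omega)
    · rw [if_neg h1] at h
      have h2 : stA M B u α = α := by
        unfold stA nx
        exact if_neg h1
      have h3 : ∀ j, (stA M B u)^[j] α = α := by
        intro j
        induction j with
        | zero => rfl
        | succ j ihj => rw [Function.iterate_succ_apply', ihj, h2]
      rw [h3]
      simpa [nx] using h

end

/-- **Reductions between oracles.** -/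
theorem isFP_of_red {A B : Oracle} {Q : List Bool → List (List Bool)}
    {T : List Bool × List Bool → Bool} (hQ : Poly Q) (hT : Poly T)
    (hB : ∀ z, B z = T (z, (Q z).map A)) {F : List Bool → List Bool} (h : IsFP B F) :
    IsFP A F := by
  obtain ⟨M, hM⟩ := h
  have h1 := isFP_simF M hQ hT hB
  have e : simF M Q T A = F := by
    funext x
    have h2 := run_sim M B x (F x) (M.p.eval x.length) [] (hM x) (M.p.eval x.length) le_rfl
    unfold simF
    rw [iter_stS M hB, unpair_pairBits]
    exact h2
  rwa [e] at h1

end Pool.Agent.W900.DJ
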