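import Pool.Agent.W900.DJ.Rel
import Pool.Agent.W900.DJ.Cov
import Pool.Agent.W900.BJ.Fin
import Pool.Agent.H591R3.PHG.LangSig

/-!
# Joining a set to an oracle at the strings which begin with `10`
-/

set_option autoImplicit false

namespace Pool.Agent.W900.DJ

open Filter MeasureTheory Pool.Agent.NPC Pool.Agent.H620R2.Gauge Pool.Agent.H622R2
open Pool.Agent.W900.RB (reg reg_inj length_reg)
open Pool.Agent.H628R3.RO (randomOracle prob)
open Pool.Agent.H591R3.PHG
open scoped ENNReal

open Classical in
/-- The set `S` at the strings that begin with `10`, and `O` at all other strings. -/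
noncomputable def plug (O : Oracle) (S : Set (List Bool)) : Oracle := fun z =>
  if z.take 2 = [true, false] then decide (z.drop 2 ∈ S) else O z

/-- the strings of the block of `q` -/
def cb (q : List Bool) (l : ℕ) : List Bool := true :: false :: reg l q

theorem cb_inj {q q' : List Bool} {l l' : ℕ} (h : cb q l = cb q' l') : q = q' ∧ l = l' := by
  unfold cb at h
  simp only [List.cons.injEq, true_and] at h
  obtain ⟨h1, h2⟩ := reg_inj h
  exact ⟨h2, h1⟩

theorem take_cb (q : List Bool) (l : ℕ) : (cb q l).take 2 = [true, false] := rfl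

theorem length_cb (q : List Bool) (l : ℕ) : (cb q l).length = q.length + l + 3 := by
  unfold cb
  rw [List.length_cons, List.length_cons, length_reg]
  omega

/-- a bad block -/
def EQ (q : List Bool) (m : ℕ) : Set Oracle := {O | ∀ l < m, O (cb q l) = false}

theorem measure_EQ (q : List Bool) (m : ℕ) : randomOracle (EQ q m) ≤ (1 / 2 : ℝ≥0∞) ^ m := by
  have h1 := Pool.Agent.H628R3.RO.prob_agree ((List.range m).map (cb q)) (by
    refine List.Nodup.map (fun l l' h => (cb_inj h).2) List.nodup_range) (fun _ => false)
  have h2 : {A : Oracle | ∀ x ∈ (List.range m).map (cb q), A x = (fun _ => false) x} = EQ q m := by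
    ext A
    simp [EQ]
  rw [h2, List.length_map, List.length_range] at h1
  have h3 : randomOracle (EQ q m) = ENNReal.ofReal ((1 / 2) ^ m) := by
    rw [← h1]
    unfold prob Measure.real
    rw [ENNReal.ofReal_toReal (measure_ne_top _ _)]
  rw [h3, ENNReal.ofReal_pow (by norm_num)]
  refine le_of_eq ?_
  congr 1
  rw [ENNReal.ofReal_div_of_pos (by norm_num)]
  simp

/-- Almost surely no block of a long string is empty. -/
theorem ae_typ : ∀ᵐ O ∂randomOracle, ∃ N, ∀ q : List Bool, N ≤ q.length →
    ¬ ∀ l < 3 * (q.length + 1), O (cb q l) = false := by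
  have h1 : ∑' n : ℕ, randomOracle (⋃ i ∈ Finset.range (2 ^ (n + 1)), EQ (str i) (3 * (n + 1))) ≠
      ∞ := by
    have h2 : ∀ n : ℕ, randomOracle (⋃ i ∈ Finset.range (2 ^ (n + 1)), EQ (str i) (3 * (n + 1))) ≤
        (1 / 2 : ℝ≥0∞) ^ n := by
      intro n
      refine (measure_biUnion_finset_le _ _).trans ?_
      refine (Finset.sum_le_sum fun i _ => measure_EQ (str i) (3 * (n + 1))).trans ?_
      rw [Finset.sum_const, Finset.card_range, nsmul_eq_mul]
      have h3 : (1 / 2 : ℝ≥0∞) ^ (3 * (n + 1)) = (1 / 2) ^ (n + 1) * (1 / 2) ^ (2 * (n + 1)) := by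
        rw [← pow_add]
        congr 1
        ring
      have h4 : ((2 ^ (n + 1) : ℕ) : ℝ≥0∞) * (1 / 2) ^ (n + 1) = 1 := by
        push_cast
        rw [← mul_pow]
        have : (2 : ℝ≥0∞) * (1 / 2) = 1 := by
          rw [one_div]
          exact ENNReal.mul_inv_cancel (by norm_num) (by norm_num)
        rw [this, one_pow]
      rw [h3, ← mul_assoc, h4, one_mul]
      exact pow_le_pow_of_le_one (by positivity) (by simp) (by omega)
    refine ne_top_of_le_ne_top ?_ (ENNReal.tsum_le_tsum h2)
    rw [ENNReal.tsum_geometric]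
    simp
  filter_upwards [ae_eventually_notMem h1] with O hO
  obtain ⟨N, hN⟩ := eventually_atTop.1 hO
  refine ⟨N, fun q hq h => hN q.length hq ?_⟩
  simp only [Set.mem_iUnion, Finset.mem_range]
  refine ⟨idx q, lt_of_le_of_lt (Nat.le_succ _) (idx_lt q), ?_⟩
  rw [str_idx]
  exact h

/-! ## The coding of the set -/

/-- the code strings -/
def Z1 (S : Set (List Bool)) : Set (List Bool) :=
  {z | ∃ q ∈ S, ∃ l < 3 * (q.length + 1), z = cb q l}

/-- the corrections -/
def Z2 (O : Oracle) (S : Set (List Bool)) : Set (List Bool) :=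
  {z | ∃ q ∉ S, z = cb q 0 ∧ ∀ l < 3 * (q.length + 1), O (cb q l) = false}

open Classical in
/-- the changed oracle -/
noncomputable def AA (O : Oracle) (S : Set (List Bool)) : Oracle := fun z =>
  if z ∈ Z1 S then false else if z ∈ Z2 O S then true else O z

theorem AA_off {O : Oracle} {S : Set (List Bool)} {z : List Bool}
    (h : z.take 2 ≠ [true, false]) : AA O S z = O z := by
  unfold AA
  rw [if_neg, if_neg]
  · rintro ⟨q, _, rfl, _⟩
    exact h (take_cb _ _)
  · rintro ⟨q, _, l, _, rfl⟩
    exact h (take_cb _ _)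

theorem mem_iff (O : Oracle) (S : Set (List Bool)) (q : List Bool) :
    q ∈ S ↔ ∀ l < 3 * (q.length + 1), AA O S (cb q l) = false := by
  constructor
  · intro h l hl
    unfold AA
    rw [if_pos ⟨q, h, l, hl, rfl⟩]
  · intro h
    by_contra hq
    have h1 : ∀ l, cb q l ∉ Z1 S := by
      rintro l ⟨q', h2, l', _, h3⟩
      obtain ⟨rfl, _⟩ := cb_inj h3
      exact hq h2
    by_cases h2 : ∀ l < 3 * (q.length + 1), O (cb q l) = false
    · have h3 := h 0 (by omega)
      unfold AA at h3
      rw [if_neg (h1 0), if_pos ⟨q, hq, rfl, h2⟩] at h3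
      simp at h3
    · push Not at h2
      obtain ⟨l, hl, h3⟩ := h2
      have h4 := h l hl
      unfold AA at h4
      rw [if_neg (h1 l)] at h4
      split_ifs at h4 with h5
      exact h3 h4

/-- the test of the first two bits -/
def hd (z : List Bool) : Bool := decide (z.head? = some true) && decide (z.tail.head? = some false)

theorem hd_iff (z : List Bool) : hd z = true ↔ z.take 2 = [true, false] := by
  rcases z with _ | ⟨a, _ | ⟨b, z⟩⟩ <;> simp [hd]

theorem drop_two (z : List Bool) : z.drop 2 = z.tail.tail := by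
  rcases z with _ | ⟨a, _ | ⟨b, z⟩⟩ <;> simp

theorem isFP_plug {O : Oracle} {S : Set (List Bool)} {F : List Bool → List Bool}
    (h : IsFP (plug O S) F) : IsFP (AA O S) F := by
  classical
  have htt : Poly (fun z : List Bool => z.tail.tail) := Poly.tail (Poly.tail Poly.id)
  have hhd : Poly hd := Poly.and (Poly.decide_eq (Poly.head? Poly.id) (NPC.Poly.const _))
    (Poly.decide_eq (Poly.head? (Poly.tail Poly.id)) (NPC.Poly.const _))
  have hR : Poly (fun z : List Bool => (List.range (3 * (z.tail.tail.length + 1))).map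
      (fun l => cb z.tail.tail l)) := by
    have hN : UPoly (fun z : List Bool => 3 * (z.tail.tail.length + 1)) :=
      UPoly.mul (UPoly.const 3) (UPoly.add (UPoly.length htt) (UPoly.const 1))
    have hmin : ∀ z : List Bool, (List.range (3 * (z.tail.tail.length + 1))).map
        (fun l => cb z.tail.tail l) = (List.range (3 * (z.tail.tail.length + 1))).map
        (fun l => cb z.tail.tail (min l (3 * (z.tail.tail.length + 1)))) := by
      intro z
      apply List.map_congr_left
      intro l hl
      rw [List.mem_range] at hl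
      rw [Nat.min_eq_left hl.le]
    refine Poly.congr (NPC.Poly.map (F := fun (z : List Bool) (l : ℕ) =>
      cb z.tail.tail (min l (3 * (z.tail.tail.length + 1)))) hN.range ?_)
      (fun z => (hmin z).symm)
    unfold cb
    have hm : UPoly (fun p : List Bool × ℕ => min p.2 (3 * (p.1.tail.tail.length + 1))) :=
      UPoly.of_le (Poly.min (Poly.snd Poly.id) (hN.comp (Poly.fst Poly.id)).toPoly)
        (hN.comp (Poly.fst Poly.id)) (fun p => min_le_right _ _)
    exact Poly.cons (NPC.Poly.const _) (Poly.cons (NPC.Poly.const _)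
      (IM.poly_reg hm (htt.comp (Poly.fst Poly.id))))
  refine isFP_of_red (B := plug O S) (A := AA O S)
    (Q := fun z => if hd z = true then
      (List.range (3 * (z.tail.tail.length + 1))).map (fun l => cb z.tail.tail l) else [z])
    (T := fun p => if hd p.1 = true then p.2.all (fun b => !b) else
      decide (p.2.head? = some true)) ?_ ?_ ?_ h
  · exact Poly.ite (Poly.decide_eq hhd (NPC.Poly.const _)) hR
      (Poly.cons Poly.id (NPC.Poly.const []))
  · exact Poly.ite (Poly.decide_eq (hhd.comp (Poly.fst Poly.id)) (NPC.Poly.const _))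
      (Poly.all (p := fun (_ : List Bool × List Bool) (b : Bool) => !b) (Poly.snd Poly.id)
        (Poly.not (Poly.snd Poly.id)))
      (Poly.decide_eq (Poly.head? (Poly.snd Poly.id)) (NPC.Poly.const _))
  · intro z
    unfold plug
    by_cases hz : z.take 2 = [true, false]
    · have h2 : hd z = true := (hd_iff z).2 hz
      simp only [hz, h2, if_true]
      rw [drop_two]
      rw [Bool.eq_iff_iff, decide_eq_true_iff, List.all_eq_true, mem_iff O S]
      simp
    · have h2 : ¬ hd z = true := fun h => hz ((hd_iff z).1 h)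
      have h3 : AA O S z = O z := AA_off hz
      rw [if_neg hz, if_neg h2]
      simp only [if_neg h2, List.map_cons, List.map_nil, List.head?_cons, h3]
      cases O z <;> simp

end Pool.Agent.W900.DJ
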